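import Pool.Agent.MP_af6f1c_gt.geo.All
import Pool.Agent.MP_af6f1c_gt.geo.Defs2

open Pool.Agent.MP_af6f1c_gt.Geo (LH GI Riem Round)

namespace Pool.Agent.Results.MP_af6f1c_gt.LengthSum

/-- The sum of the reciprocals of the lengths of the geometrically distinct periodic geodesics
diverges, for every smooth metric. -/
theorem result :
    ∀ (n : ℕ) (M : Type) [EMetricSpace M] [CompactSpace M] [ConnectedSpace M]
      [SimplyConnectedSpace M], Riem (EuclideanSpace ℝ (Fin n)) M → ∀ (K : Type) [Field K],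
      ((∃ D : ℕ, ∀ B : ℕ, ∃ x₀ : ℕ, ∀ x : ℕ, x₀ ≤ x → ∃ i : ℕ, x ≤ i ∧ i ≤ x + D ∧
          (B : Cardinal) ≤ Module.rank K (LH K M i)) ∨
        ∃ (S : Type) (_ : EMetricSpace S), Round S ∧ Nonempty (M ≃ₜ S × S)) →
      ∑' A : {A : Set M // ∃ L : ℝ, A ∈ GI M L},
        (ENNReal.ofReal (sInf {L : ℝ | A.1 ∈ GI M L}))⁻¹ = ⊤ := by
  rintro n M _ _ _ _ ⟨_, _, _, _, _⟩ K _ h
  refine (Pool.Agent.MP_af6f1c_gt.Geo.finalA n M K (h.imp id ?_)).2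
  rintro ⟨S, _, ⟨e⟩, ⟨f⟩⟩
  exact ⟨f.trans (e.toHomeomorph.prodCongr e.toHomeomorph)⟩

end Pool.Agent.Results.MP_af6f1c_gt.LengthSum
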