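import Pool.Agent.MP_af6f1c_gt.geo.All
import Pool.Agent.MP_af6f1c_gt.geo.FinB
import Pool.Agent.MP_af6f1c_gt.geo.Sh3
import Pool.Agent.MP_af6f1c_gt.geo.Defs2
import Pool.Agent.MP_af6f1c_gt.geo.Defs3

open Pool.Agent.MP_af6f1c_gt.Geo

namespace Pool.Agent.Results.MP_af6f1c_gt.Pinched

/-- The inequality of Q1 for all metrics on a product of two three-spheres that are pinched
between product metrics, with an explicit pinching constant. -/
theorem result :
    ∀ (S : Type) [EMetricSpace S], Round S →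
    ∀ (n : ℕ) (M : Type) [EMetricSpace M] [CompactSpace M] [ConnectedSpace M],
      Riem (EuclideanSpace ℝ (Fin n)) M → ∀ (K : Type) [Field K] (f g : M → S),
      IsHomeomorph (fun x : M => (f x, g x)) →
      ∀ lam A B : ℝ, 0 < lam → 0 < A → 0 < B → A * B < lam * √(A ^ 2 + B ^ 2) →
      (∀ x y : M, ENNReal.ofReal (lam * Arc (f x) (f y)) ≤ edist x y) →
      (∀ x y : M, edist x y ≤
        ENNReal.ofReal √(A ^ 2 * Arc (f x) (f y) ^ 2 + B ^ 2 * Arc (g x) (g y) ^ 2)) →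
      ∃ a b : ℝ, 0 < a ∧ 0 < b ∧ ∃ L₀ : ℝ, ∀ L : ℝ, L₀ ≤ L →
        ENNReal.ofReal (a / L * ∑ i ∈ Finset.range (⌊b * L⌋₊ + 1),
          (Module.finrank K (LH K M i) : ℝ)) ≤ (((GI M L).encard : ℕ∞) : ENNReal) := by
  rintro S _ ⟨e₀⟩ n M _ _ _ ⟨_, _, _, _, _⟩ K _ f g h lam A B hl hA hB hAB h1 h2
  obtain ⟨e₁⟩ := FinAP.exists_iso
  let e := e₀.trans e₁
  let _ : MetricSpace M := EMetricSpace.toMetricSpace (FinAP.edist_ne_top_of_connected M)
  obtain ⟨ρ, ch, g0⟩ := riemA n M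
  obtain ⟨G⟩ := segS n M ρ ch g0
  have E : ∀ u v : S, ShP.an (e u) (e v) = Arc u v := fun u v => by
    rw [ShP.an, Arc, ← e.edist_eq, dist_edist]
  refine ShP.core2 basics (tools K) (suspA K) (lev K basics (tools K) (near K (tools K)))
    (countA K) (up K basics (tools K) (wangA K) (suspRkA K)) (link K) G
    ((IsHomeomorph.homeomorph _ h).trans (e.toHomeomorph.prodCongr e.toHomeomorph)) hl hA hB hAB
    (fun x y => ?_) fun x y => ?_
  · have := h1 x y
    rwa [edist_dist, ENNReal.ofReal_le_ofReal_iff dist_nonneg, ← E] at this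
  · have := h2 x y
    rwa [edist_dist, ENNReal.ofReal_le_ofReal_iff (Real.sqrt_nonneg _), ← E, ← E] at this

end Pool.Agent.Results.MP_af6f1c_gt.Pinched
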