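import Pool.Agent.MP_af6f1c_gt.geo.AllB
import Pool.Agent.MP_af6f1c_gt.geo.Defs2

open Pool.Agent.MP_af6f1c_gt.Geo (LH GI Riem Round)

namespace Pool.Agent.Results.MP_af6f1c_gt.SphereProduct

/-- The inequality of Q1 on products with the three-sphere, for metrics with one small fibre. -/
theorem result :
    ∀ (S : Type) [EMetricSpace S], Round S →
    ∀ (k : ℕ) (N : Type) [EMetricSpace N] [CompactSpace N] [ConnectedSpace N]
      [SimplyConnectedSpace N], Riem (EuclideanSpace ℝ (Fin k)) N → ∀ (K : Type) [Field K],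
      ((∃ B : ℕ, ∀ i : ℕ, Module.rank K (LH K N i) ≤ B) ∨ Nonempty (N ≃ₜ S)) →
      ∃ ε : ℝ, 0 < ε ∧
        ∀ (n : ℕ) (M : Type) [EMetricSpace M] [CompactSpace M] [ConnectedSpace M],
          Riem (EuclideanSpace ℝ (Fin n)) M →
          ∀ (h : M ≃ₜ S × N) (x₀ : S) (lam : ℝ), 0 < lam →
          (∀ x y : M, ENNReal.ofReal lam * edist (h x).1 (h y).1 ≤ edist x y) →
          (∀ y y' : N, edist (h.symm (x₀, y)) (h.symm (x₀, y')) ≤
            ENNReal.ofReal (ε * lam) * edist y y') →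
          ∃ a b : ℝ, 0 < a ∧ 0 < b ∧ ∃ L₀ : ℝ, ∀ L : ℝ, L₀ ≤ L →
            ENNReal.ofReal (a / L * ∑ i ∈ Finset.range (⌊b * L⌋₊ + 1),
              (Module.finrank K (LH K M i) : ℝ)) ≤ (((GI M L).encard : ℕ∞) : ENNReal) := by
  rintro S _ ⟨e⟩ k N _ _ _ _ ⟨_, _, _, _, _⟩ K _ hN
  obtain ⟨ε, hε, H⟩ := Pool.Agent.MP_af6f1c_gt.Geo.finalB k N K
    (hN.imp id fun ⟨f⟩ => ⟨f.trans e.toHomeomorph⟩)
  refine ⟨ε, hε, ?_⟩
  rintro n M _ _ _ ⟨_, _, _, _, _⟩ h x₀ lam hl h1 h2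
  refine H n M (h.trans (e.toHomeomorph.prodCongr (Homeomorph.refl N))) (e x₀) lam hl
    (fun x y => ?_) fun y y' => ?_
  · have := h1 x y
    rwa [← e.edist_eq] at this
  · have E : ∀ z : N, (h.trans (e.toHomeomorph.prodCongr (Homeomorph.refl N))).symm (e x₀, z) =
        h.symm (x₀, z) := fun z => by
      rw [Homeomorph.symm_apply_eq]
      simp
    rw [E, E]
    exact h2 y y'

end Pool.Agent.Results.MP_af6f1c_gt.SphereProduct
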